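import Mathlib

namespace Pool.Agent.H.MP_011e6c_al

structure G where
  (v1 v2 v3 v4 w11 w22 w33 w12 w13 w23 w34 w24 : Bool)

instance : Mul G := ⟨fun g h => ⟨g.v1 ^^ h.v1, g.v2 ^^ h.v2, g.v3 ^^ h.v3, g.v4 ^^ h.v4,
  g.w11 ^^ h.w11 ^^ (g.v1 && h.v1),
  g.w22 ^^ h.w22 ^^ (g.v2 && h.v2),
  g.w33 ^^ h.w33 ^^ (g.v3 && h.v3),
  g.w12 ^^ h.w12 ^^ (g.v1 && h.v2),
  g.w13 ^^ h.w13 ^^ (g.v1 && h.v3),
  g.w23 ^^ h.w23 ^^ (g.v2 && h.v3),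
  g.w34 ^^ h.w34 ^^ (g.v3 && h.v4),
  g.w24 ^^ h.w24 ^^ (g.v2 && h.v4)⟩⟩
instance : One G := ⟨⟨false, false, false, false, false, false, false, false, false, false, false, false⟩⟩
instance : Inv G := ⟨fun g => ⟨g.v1, g.v2, g.v3, g.v4,
  g.w11 ^^ (g.v1 && g.v1), g.w22 ^^ (g.v2 && g.v2), g.w33 ^^ (g.v3 && g.v3), g.w12 ^^ (g.v1 && g.v2), g.w13 ^^ (g.v1 && g.v3), g.w23 ^^ (g.v2 && g.v3), g.w34 ^^ (g.v3 && g.v4), g.w24 ^^ (g.v2 && g.v4)⟩⟩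

lemma G.eq {g h : G} (h1 : g.v1 = h.v1) (h2 : g.v2 = h.v2) (h3 : g.v3 = h.v3) (h4 : g.v4 = h.v4)
    (h5 : g.w11 = h.w11) (h6 : g.w22 = h.w22) (h7 : g.w33 = h.w33) (h8 : g.w12 = h.w12)
    (h9 : g.w13 = h.w13) (h10 : g.w23 = h.w23) (h11 : g.w34 = h.w34) (h12 : g.w24 = h.w24) :
    g = h := by
  cases g; cases h; simp_all

lemma as1 : ∀ x y z a b c d e f : Bool, (x ^^ y ^^ (a && d) ^^ z ^^ ((a ^^ b) && f)) =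
    (x ^^ (y ^^ z ^^ (b && f)) ^^ (a && (d ^^ f))) ∨ (c && e && false) := by decide +kernel

lemma as2 (x y z a b d f : Bool) : (x ^^ y ^^ (a && d) ^^ z ^^ ((a ^^ b) && f)) =
    (x ^^ (y ^^ z ^^ (b && f)) ^^ (a && (d ^^ f))) := by simpa using as1 x y z a b true d true f

lemma o2 : ∀ x a : Bool, (false ^^ x ^^ (false && a)) = x := by decide
lemma i2 : ∀ x a b : Bool, (x ^^ (a && b) ^^ x ^^ (a && b)) = false := by decide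

instance : Group G := Group.ofLeftAxioms
  (fun _ _ _ => G.eq (Bool.xor_assoc ..) (Bool.xor_assoc ..) (Bool.xor_assoc ..) (Bool.xor_assoc ..)
    (as2 ..) (as2 ..) (as2 ..) (as2 ..) (as2 ..) (as2 ..) (as2 ..) (as2 ..))
  (fun g => G.eq (Bool.false_xor _) (Bool.false_xor _) (Bool.false_xor _) (Bool.false_xor _)
    (o2 _ g.v1) (o2 _ g.v2) (o2 _ g.v3) (o2 _ g.v2) (o2 _ g.v3) (o2 _ g.v3) (o2 _ g.v4) (o2 _ g.v4))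
  (fun _ => G.eq (Bool.xor_self _) (Bool.xor_self _) (Bool.xor_self _) (Bool.xor_self _)
    (i2 ..) (i2 ..) (i2 ..) (i2 ..) (i2 ..) (i2 ..) (i2 ..) (i2 ..))

def NL : Sublattice (Subgroup G) where
  carrier := {N | N.Normal}
  supClosed' := fun _ h _ k => @Subgroup.sup_normal _ _ _ _ h k
  infClosed' := fun _ h _ k => @Subgroup.normal_inf_normal _ _ _ _ h k

structure D where
  (f p c : G → Bool)
  hf : ∀ g h, f (g * h) = (f g ^^ f h)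
  hp : ∀ g h, p (g * h) = (p g ^^ p h)
  hc : ∀ g h, c (g * h) = (c g ^^ c h ^^ (f g && p h))

def D.t (d : D) (g : G) : Bool := !(d.f g || d.p g || d.c g)

lemma D.one (d : D) : d.f 1 = false ∧ d.p 1 = false ∧ d.c 1 = false := by
  have h1 := d.hf 1 1
  have h2 := d.hp 1 1
  have h3 := d.hc 1 1
  simp only [mul_one, Bool.xor_self] at h1 h2 h3
  simp_all

lemma D.inv (d : D) (g : G) : d.f g⁻¹ = d.f g ∧ d.p g⁻¹ = d.p g ∧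
    d.c g⁻¹ = (d.c g ^^ (d.f g && d.p g)) := by
  have h1 := d.hf g g⁻¹
  have h2 := d.hp g g⁻¹
  have h3 := d.hc g g⁻¹
  simp only [mul_inv_cancel, d.one] at h1 h2 h3
  revert h1 h2 h3
  generalize d.f g = a; generalize d.p g = b; generalize d.c g = c
  generalize d.f g⁻¹ = a'; generalize d.p g⁻¹ = b'; generalize d.c g⁻¹ = c'
  revert a b c a' b' c'
  decide

def D.K (d : D) : NL := ⟨{
  carrier := {g | d.t g = true}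
  mul_mem' := fun {a b} => by simp +contextual [D.t, d.hf, d.hp, d.hc]
  one_mem' := by simp [D.t, d.one]
  inv_mem' := fun {a} => by simp +contextual [D.t, d.inv] }, ⟨fun n hn g => by
    change d.t _ = true at hn ⊢
    simp only [D.t, Bool.not_eq_true', Bool.or_eq_false_iff] at hn
    simp [D.t, d.hf, d.hp, d.hc, d.inv, hn]⟩⟩

def T : NL := ⟨⊤, show (⊤ : Subgroup G).Normal from inferInstance⟩

instance (d : D) (g : G) : Decidable (g ∈ d.K.1) := inferInstanceAs (Decidable (d.t g = true))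
instance (g : G) : Decidable (g ∈ T.1) := isTrue trivial
instance (x y : NL) (g : G) [Decidable (g ∈ x.1)] [Decidable (g ∈ y.1)] :
    Decidable (g ∈ (x ⊓ y).1) := inferInstanceAs (Decidable (g ∈ x.1 ∧ g ∈ y.1))

lemma le_of {x y : NL} (h : ∀ a b c d e f g i j k l m, (⟨a, b, c, d, e, f, g, i, j, k, l, m⟩ : G) ∈ x.1 →
    (⟨a, b, c, d, e, f, g, i, j, k, l, m⟩ : G) ∈ y.1) : x ≤ y := fun _ => h _ _ _ _ _ _ _ _ _ _ _ _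

lemma sup_of {t x y : NL} (s : G → G) (h : ∀ a b c d e f g i j k l m,
    (⟨a, b, c, d, e, f, g, i, j, k, l, m⟩ : G) ∈ t.1 →
    s ⟨a, b, c, d, e, f, g, i, j, k, l, m⟩ ∈ x.1 ∧ (s ⟨a, b, c, d, e, f, g, i, j, k, l, m⟩)⁻¹ *
      ⟨a, b, c, d, e, f, g, i, j, k, l, m⟩ ∈ y.1) : t ≤ x ⊔ y := fun g hg => by
  obtain ⟨h1, h2⟩ : s g ∈ x.1 ∧ (s g)⁻¹ * g ∈ y.1 := h _ _ _ _ _ _ _ _ _ _ _ _ hg
  simpa using Subgroup.mul_mem_sup h1 h2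

def z1 : D where
  f g := g.v1
  p _ := false
  c _ := false
  hf := fun g h => (by decide +kernel : ∀ av1 bv1 : Bool,
    (av1 ^^ bv1) = (av1 ^^ bv1))
    g.v1 h.v1
  hp := fun _ _ => rfl
  hc := fun g h => (by decide +kernel : ∀ av1 bv1 : Bool,
    false = (false ^^ false ^^ (av1 && false)))
    g.v1 h.v1

def z2 : D where
  f g := g.v2
  p _ := false
  c _ := false
  hf := fun g h => (by decide +kernel : ∀ av2 bv2 : Bool,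
    (av2 ^^ bv2) = (av2 ^^ bv2))
    g.v2 h.v2
  hp := fun _ _ => rfl
  hc := fun g h => (by decide +kernel : ∀ av2 bv2 : Bool,
    false = (false ^^ false ^^ (av2 && false)))
    g.v2 h.v2

def z3 : D where
  f g := g.v3
  p _ := false
  c _ := false
  hf := fun g h => (by decide +kernel : ∀ av3 bv3 : Bool,
    (av3 ^^ bv3) = (av3 ^^ bv3))
    g.v3 h.v3
  hp := fun _ _ => rfl
  hc := fun g h => (by decide +kernel : ∀ av3 bv3 : Bool,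
    false = (false ^^ false ^^ (av3 && false)))
    g.v3 h.v3

def z12 : D where
  f g := (g.v1 ^^ g.v2)
  p _ := false
  c _ := false
  hf := fun g h => (by decide +kernel : ∀ av1 av2 bv1 bv2 : Bool,
    ((av1 ^^ bv1) ^^ (av2 ^^ bv2)) = ((av1 ^^ av2) ^^ (bv1 ^^ bv2)))
    g.v1 g.v2 h.v1 h.v2
  hp := fun _ _ => rfl
  hc := fun g h => (by decide +kernel : ∀ av1 av2 bv1 bv2 : Bool,
    false = (false ^^ false ^^ ((av1 ^^ av2) && false)))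
    g.v1 g.v2 h.v1 h.v2

def z13 : D where
  f g := (g.v1 ^^ g.v3)
  p _ := false
  c _ := false
  hf := fun g h => (by decide +kernel : ∀ av1 av3 bv1 bv3 : Bool,
    ((av1 ^^ bv1) ^^ (av3 ^^ bv3)) = ((av1 ^^ av3) ^^ (bv1 ^^ bv3)))
    g.v1 g.v3 h.v1 h.v3
  hp := fun _ _ => rfl
  hc := fun g h => (by decide +kernel : ∀ av1 av3 bv1 bv3 : Bool,
    false = (false ^^ false ^^ ((av1 ^^ av3) && false)))
    g.v1 g.v3 h.v1 h.v3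

def c1 : D where
  f g := g.v1
  p g := g.v1
  c g := g.w11
  hf := fun g h => (by decide +kernel : ∀ av1 bv1 : Bool,
    (av1 ^^ bv1) = (av1 ^^ bv1))
    g.v1 h.v1
  hp := fun g h => (by decide +kernel : ∀ av1 bv1 : Bool,
    (av1 ^^ bv1) = (av1 ^^ bv1))
    g.v1 h.v1
  hc := fun g h => (by decide +kernel : ∀ av1 aw11 bv1 bw11 : Bool,
    (aw11 ^^ bw11 ^^ (av1 && bv1)) = (aw11 ^^ bw11 ^^ (av1 && bv1)))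
    g.v1 g.w11 h.v1 h.w11

def c2 : D where
  f g := g.v2
  p g := g.v2
  c g := g.w22
  hf := fun g h => (by decide +kernel : ∀ av2 bv2 : Bool,
    (av2 ^^ bv2) = (av2 ^^ bv2))
    g.v2 h.v2
  hp := fun g h => (by decide +kernel : ∀ av2 bv2 : Bool,
    (av2 ^^ bv2) = (av2 ^^ bv2))
    g.v2 h.v2
  hc := fun g h => (by decide +kernel : ∀ av2 aw22 bv2 bw22 : Bool,
    (aw22 ^^ bw22 ^^ (av2 && bv2)) = (aw22 ^^ bw22 ^^ (av2 && bv2)))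
    g.v2 g.w22 h.v2 h.w22

def c3 : D where
  f g := g.v3
  p g := g.v3
  c g := g.w33
  hf := fun g h => (by decide +kernel : ∀ av3 bv3 : Bool,
    (av3 ^^ bv3) = (av3 ^^ bv3))
    g.v3 h.v3
  hp := fun g h => (by decide +kernel : ∀ av3 bv3 : Bool,
    (av3 ^^ bv3) = (av3 ^^ bv3))
    g.v3 h.v3
  hc := fun g h => (by decide +kernel : ∀ av3 aw33 bv3 bw33 : Bool,
    (aw33 ^^ bw33 ^^ (av3 && bv3)) = (aw33 ^^ bw33 ^^ (av3 && bv3)))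
    g.v3 g.w33 h.v3 h.w33

def c12 : D where
  f g := (g.v1 ^^ g.v2)
  p g := (g.v1 ^^ g.v2)
  c g := (g.w11 ^^ g.w22 ^^ g.v2 ^^ (g.v1 && g.v2))
  hf := fun g h => (by decide +kernel : ∀ av1 av2 bv1 bv2 : Bool,
    ((av1 ^^ bv1) ^^ (av2 ^^ bv2)) = ((av1 ^^ av2) ^^ (bv1 ^^ bv2)))
    g.v1 g.v2 h.v1 h.v2
  hp := fun g h => (by decide +kernel : ∀ av1 av2 bv1 bv2 : Bool,
    ((av1 ^^ bv1) ^^ (av2 ^^ bv2)) = ((av1 ^^ av2) ^^ (bv1 ^^ bv2)))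
    g.v1 g.v2 h.v1 h.v2
  hc := fun g h => (by decide +kernel : ∀ av1 av2 aw11 aw22 bv1 bv2 bw11 bw22 : Bool,
    ((aw11 ^^ bw11 ^^ (av1 && bv1)) ^^ (aw22 ^^ bw22 ^^ (av2 && bv2)) ^^ (av2 ^^ bv2) ^^ ((av1 ^^ bv1) && (av2 ^^ bv2))) = ((aw11 ^^ aw22 ^^ av2 ^^ (av1 && av2)) ^^ (bw11 ^^ bw22 ^^ bv2 ^^ (bv1 && bv2)) ^^ ((av1 ^^ av2) && (bv1 ^^ bv2))))
    g.v1 g.v2 g.w11 g.w22 h.v1 h.v2 h.w11 h.w22

def c13 : D where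
  f g := (g.v1 ^^ g.v3)
  p g := (g.v1 ^^ g.v3)
  c g := (g.w11 ^^ g.w33 ^^ g.v3 ^^ (g.v1 && g.v3))
  hf := fun g h => (by decide +kernel : ∀ av1 av3 bv1 bv3 : Bool,
    ((av1 ^^ bv1) ^^ (av3 ^^ bv3)) = ((av1 ^^ av3) ^^ (bv1 ^^ bv3)))
    g.v1 g.v3 h.v1 h.v3
  hp := fun g h => (by decide +kernel : ∀ av1 av3 bv1 bv3 : Bool,
    ((av1 ^^ bv1) ^^ (av3 ^^ bv3)) = ((av1 ^^ av3) ^^ (bv1 ^^ bv3)))
    g.v1 g.v3 h.v1 h.v3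
  hc := fun g h => (by decide +kernel : ∀ av1 av3 aw11 aw33 bv1 bv3 bw11 bw33 : Bool,
    ((aw11 ^^ bw11 ^^ (av1 && bv1)) ^^ (aw33 ^^ bw33 ^^ (av3 && bv3)) ^^ (av3 ^^ bv3) ^^ ((av1 ^^ bv1) && (av3 ^^ bv3))) = ((aw11 ^^ aw33 ^^ av3 ^^ (av1 && av3)) ^^ (bw11 ^^ bw33 ^^ bv3 ^^ (bv1 && bv3)) ^^ ((av1 ^^ av3) && (bv1 ^^ bv3))))
    g.v1 g.v3 g.w11 g.w33 h.v1 h.v3 h.w11 h.w33

def c23 : D where
  f g := (g.v2 ^^ g.v3)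
  p g := (g.v2 ^^ g.v3)
  c g := (g.w22 ^^ g.w33 ^^ g.v3 ^^ (g.v2 && g.v3))
  hf := fun g h => (by decide +kernel : ∀ av2 av3 bv2 bv3 : Bool,
    ((av2 ^^ bv2) ^^ (av3 ^^ bv3)) = ((av2 ^^ av3) ^^ (bv2 ^^ bv3)))
    g.v2 g.v3 h.v2 h.v3
  hp := fun g h => (by decide +kernel : ∀ av2 av3 bv2 bv3 : Bool,
    ((av2 ^^ bv2) ^^ (av3 ^^ bv3)) = ((av2 ^^ av3) ^^ (bv2 ^^ bv3)))
    g.v2 g.v3 h.v2 h.v3
  hc := fun g h => (by decide +kernel : ∀ av2 av3 aw22 aw33 bv2 bv3 bw22 bw33 : Bool,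
    ((aw22 ^^ bw22 ^^ (av2 && bv2)) ^^ (aw33 ^^ bw33 ^^ (av3 && bv3)) ^^ (av3 ^^ bv3) ^^ ((av2 ^^ bv2) && (av3 ^^ bv3))) = ((aw22 ^^ aw33 ^^ av3 ^^ (av2 && av3)) ^^ (bw22 ^^ bw33 ^^ bv3 ^^ (bv2 && bv3)) ^^ ((av2 ^^ av3) && (bv2 ^^ bv3))))
    g.v2 g.v3 g.w22 g.w33 h.v2 h.v3 h.w22 h.w33

def y : D where
  f g := (g.v1 ^^ g.v2 ^^ g.v3)
  p g := (g.v1 ^^ g.v2 ^^ g.v3)
  c g := (g.w11 ^^ g.w22 ^^ g.w33 ^^ g.v2 ^^ (g.v1 && g.v2) ^^ (g.v1 && g.v3) ^^ (g.v2 && g.v3))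
  hf := fun g h => (by decide +kernel : ∀ av1 av2 av3 bv1 bv2 bv3 : Bool,
    ((av1 ^^ bv1) ^^ (av2 ^^ bv2) ^^ (av3 ^^ bv3)) = ((av1 ^^ av2 ^^ av3) ^^ (bv1 ^^ bv2 ^^ bv3)))
    g.v1 g.v2 g.v3 h.v1 h.v2 h.v3
  hp := fun g h => (by decide +kernel : ∀ av1 av2 av3 bv1 bv2 bv3 : Bool,
    ((av1 ^^ bv1) ^^ (av2 ^^ bv2) ^^ (av3 ^^ bv3)) = ((av1 ^^ av2 ^^ av3) ^^ (bv1 ^^ bv2 ^^ bv3)))
    g.v1 g.v2 g.v3 h.v1 h.v2 h.v3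
  hc := fun g h => (by decide +kernel : ∀ av1 av2 av3 aw11 aw22 aw33 bv1 bv2 bv3 bw11 bw22 bw33 : Bool,
    ((aw11 ^^ bw11 ^^ (av1 && bv1)) ^^ (aw22 ^^ bw22 ^^ (av2 && bv2)) ^^ (aw33 ^^ bw33 ^^ (av3 && bv3)) ^^ (av2 ^^ bv2) ^^ ((av1 ^^ bv1) && (av2 ^^ bv2)) ^^ ((av1 ^^ bv1) && (av3 ^^ bv3)) ^^ ((av2 ^^ bv2) && (av3 ^^ bv3))) = ((aw11 ^^ aw22 ^^ aw33 ^^ av2 ^^ (av1 && av2) ^^ (av1 && av3) ^^ (av2 && av3)) ^^ (bw11 ^^ bw22 ^^ bw33 ^^ bv2 ^^ (bv1 && bv2) ^^ (bv1 && bv3) ^^ (bv2 && bv3)) ^^ ((av1 ^^ av2 ^^ av3) && (bv1 ^^ bv2 ^^ bv3))))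
    g.v1 g.v2 g.v3 g.w11 g.w22 g.w33 h.v1 h.v2 h.v3 h.w11 h.w22 h.w33

def d : D where
  f g := g.v2
  p g := g.v2
  c g := (g.w22 ^^ g.v1 ^^ g.v2)
  hf := fun g h => (by decide +kernel : ∀ av2 bv2 : Bool,
    (av2 ^^ bv2) = (av2 ^^ bv2))
    g.v2 h.v2
  hp := fun g h => (by decide +kernel : ∀ av2 bv2 : Bool,
    (av2 ^^ bv2) = (av2 ^^ bv2))
    g.v2 h.v2
  hc := fun g h => (by decide +kernel : ∀ av1 av2 aw22 bv1 bv2 bw22 : Bool,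
    ((aw22 ^^ bw22 ^^ (av2 && bv2)) ^^ (av1 ^^ bv1) ^^ (av2 ^^ bv2)) = ((aw22 ^^ av1 ^^ av2) ^^ (bw22 ^^ bv1 ^^ bv2) ^^ (av2 && bv2)))
    g.v1 g.v2 g.w22 h.v1 h.v2 h.w22

def a12 : D where
  f g := g.v1
  p g := g.v2
  c g := g.w12
  hf := fun g h => (by decide +kernel : ∀ av1 bv1 : Bool,
    (av1 ^^ bv1) = (av1 ^^ bv1))
    g.v1 h.v1
  hp := fun g h => (by decide +kernel : ∀ av2 bv2 : Bool,
    (av2 ^^ bv2) = (av2 ^^ bv2))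
    g.v2 h.v2
  hc := fun g h => (by decide +kernel : ∀ av1 av2 aw12 bv1 bv2 bw12 : Bool,
    (aw12 ^^ bw12 ^^ (av1 && bv2)) = (aw12 ^^ bw12 ^^ (av1 && bv2)))
    g.v1 g.v2 g.w12 h.v1 h.v2 h.w12

def a13 : D where
  f g := g.v1
  p g := g.v3
  c g := g.w13
  hf := fun g h => (by decide +kernel : ∀ av1 bv1 : Bool,
    (av1 ^^ bv1) = (av1 ^^ bv1))
    g.v1 h.v1
  hp := fun g h => (by decide +kernel : ∀ av3 bv3 : Bool,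
    (av3 ^^ bv3) = (av3 ^^ bv3))
    g.v3 h.v3
  hc := fun g h => (by decide +kernel : ∀ av1 av3 aw13 bv1 bv3 bw13 : Bool,
    (aw13 ^^ bw13 ^^ (av1 && bv3)) = (aw13 ^^ bw13 ^^ (av1 && bv3)))
    g.v1 g.v3 g.w13 h.v1 h.v3 h.w13

def a23 : D where
  f g := g.v2
  p g := g.v3
  c g := g.w23
  hf := fun g h => (by decide +kernel : ∀ av2 bv2 : Bool,
    (av2 ^^ bv2) = (av2 ^^ bv2))
    g.v2 h.v2
  hp := fun g h => (by decide +kernel : ∀ av3 bv3 : Bool,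
    (av3 ^^ bv3) = (av3 ^^ bv3))
    g.v3 h.v3
  hc := fun g h => (by decide +kernel : ∀ av2 av3 aw23 bv2 bv3 bw23 : Bool,
    (aw23 ^^ bw23 ^^ (av2 && bv3)) = (aw23 ^^ bw23 ^^ (av2 && bv3)))
    g.v2 g.v3 g.w23 h.v2 h.v3 h.w23

def a34 : D where
  f g := g.v3
  p g := g.v4
  c g := g.w34
  hf := fun g h => (by decide +kernel : ∀ av3 bv3 : Bool,
    (av3 ^^ bv3) = (av3 ^^ bv3))
    g.v3 h.v3
  hp := fun g h => (by decide +kernel : ∀ av4 bv4 : Bool,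
    (av4 ^^ bv4) = (av4 ^^ bv4))
    g.v4 h.v4
  hc := fun g h => (by decide +kernel : ∀ av3 av4 aw34 bv3 bv4 bw34 : Bool,
    (aw34 ^^ bw34 ^^ (av3 && bv4)) = (aw34 ^^ bw34 ^^ (av3 && bv4)))
    g.v3 g.v4 g.w34 h.v3 h.v4 h.w34

def a24 : D where
  f g := g.v2
  p g := g.v4
  c g := g.w24
  hf := fun g h => (by decide +kernel : ∀ av2 bv2 : Bool,
    (av2 ^^ bv2) = (av2 ^^ bv2))
    g.v2 h.v2
  hp := fun g h => (by decide +kernel : ∀ av4 bv4 : Bool,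
    (av4 ^^ bv4) = (av4 ^^ bv4))
    g.v4 h.v4
  hc := fun g h => (by decide +kernel : ∀ av2 av4 aw24 bv2 bv4 bw24 : Bool,
    (aw24 ^^ bw24 ^^ (av2 && bv4)) = (aw24 ^^ bw24 ^^ (av2 && bv4)))
    g.v2 g.v4 g.w24 h.v2 h.v4 h.w24

def b3 : D where
  f g := (g.v1 ^^ g.v2)
  p g := g.v3
  c g := (g.w13 ^^ g.w23)
  hf := fun g h => (by decide +kernel : ∀ av1 av2 bv1 bv2 : Bool,
    ((av1 ^^ bv1) ^^ (av2 ^^ bv2)) = ((av1 ^^ av2) ^^ (bv1 ^^ bv2)))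
    g.v1 g.v2 h.v1 h.v2
  hp := fun g h => (by decide +kernel : ∀ av3 bv3 : Bool,
    (av3 ^^ bv3) = (av3 ^^ bv3))
    g.v3 h.v3
  hc := fun g h => (by decide +kernel : ∀ av1 av2 av3 aw13 aw23 bv1 bv2 bv3 bw13 bw23 : Bool,
    ((aw13 ^^ bw13 ^^ (av1 && bv3)) ^^ (aw23 ^^ bw23 ^^ (av2 && bv3))) = ((aw13 ^^ aw23) ^^ (bw13 ^^ bw23) ^^ ((av1 ^^ av2) && bv3)))
    g.v1 g.v2 g.v3 g.w13 g.w23 h.v1 h.v2 h.v3 h.w13 h.w23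

def b2 : D where
  f g := (g.v1 ^^ g.v3)
  p g := g.v2
  c g := (g.w12 ^^ g.w23 ^^ (g.v2 && g.v3))
  hf := fun g h => (by decide +kernel : ∀ av1 av3 bv1 bv3 : Bool,
    ((av1 ^^ bv1) ^^ (av3 ^^ bv3)) = ((av1 ^^ av3) ^^ (bv1 ^^ bv3)))
    g.v1 g.v3 h.v1 h.v3
  hp := fun g h => (by decide +kernel : ∀ av2 bv2 : Bool,
    (av2 ^^ bv2) = (av2 ^^ bv2))
    g.v2 h.v2
  hc := fun g h => (by decide +kernel : ∀ av1 av2 av3 aw12 aw23 bv1 bv2 bv3 bw12 bw23 : Bool,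
    ((aw12 ^^ bw12 ^^ (av1 && bv2)) ^^ (aw23 ^^ bw23 ^^ (av2 && bv3)) ^^ ((av2 ^^ bv2) && (av3 ^^ bv3))) = ((aw12 ^^ aw23 ^^ (av2 && av3)) ^^ (bw12 ^^ bw23 ^^ (bv2 && bv3)) ^^ ((av1 ^^ av3) && bv2)))
    g.v1 g.v2 g.v3 g.w12 g.w23 h.v1 h.v2 h.v3 h.w12 h.w23

def b1 : D where
  f g := g.v1
  p g := (g.v2 ^^ g.v3)
  c g := (g.w12 ^^ g.w13)
  hf := fun g h => (by decide +kernel : ∀ av1 bv1 : Bool,
    (av1 ^^ bv1) = (av1 ^^ bv1))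
    g.v1 h.v1
  hp := fun g h => (by decide +kernel : ∀ av2 av3 bv2 bv3 : Bool,
    ((av2 ^^ bv2) ^^ (av3 ^^ bv3)) = ((av2 ^^ av3) ^^ (bv2 ^^ bv3)))
    g.v2 g.v3 h.v2 h.v3
  hc := fun g h => (by decide +kernel : ∀ av1 av2 av3 aw12 aw13 bv1 bv2 bv3 bw12 bw13 : Bool,
    ((aw12 ^^ bw12 ^^ (av1 && bv2)) ^^ (aw13 ^^ bw13 ^^ (av1 && bv3))) = ((aw12 ^^ aw13) ^^ (bw12 ^^ bw13) ^^ (av1 && (bv2 ^^ bv3))))
    g.v1 g.v2 g.v3 g.w12 g.w13 h.v1 h.v2 h.v3 h.w12 h.w13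

def k : D where
  f g := (g.v1 ^^ g.v2)
  p g := (g.v1 ^^ g.v3)
  c g := (g.w11 ^^ g.w12 ^^ g.w13 ^^ g.w23 ^^ (g.v1 && g.v2))
  hf := fun g h => (by decide +kernel : ∀ av1 av2 bv1 bv2 : Bool,
    ((av1 ^^ bv1) ^^ (av2 ^^ bv2)) = ((av1 ^^ av2) ^^ (bv1 ^^ bv2)))
    g.v1 g.v2 h.v1 h.v2
  hp := fun g h => (by decide +kernel : ∀ av1 av3 bv1 bv3 : Bool,
    ((av1 ^^ bv1) ^^ (av3 ^^ bv3)) = ((av1 ^^ av3) ^^ (bv1 ^^ bv3)))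
    g.v1 g.v3 h.v1 h.v3
  hc := fun g h => (by decide +kernel : ∀ av1 av2 av3 aw11 aw12 aw13 aw23 bv1 bv2 bv3 bw11 bw12 bw13 bw23 : Bool,
    ((aw11 ^^ bw11 ^^ (av1 && bv1)) ^^ (aw12 ^^ bw12 ^^ (av1 && bv2)) ^^ (aw13 ^^ bw13 ^^ (av1 && bv3)) ^^ (aw23 ^^ bw23 ^^ (av2 && bv3)) ^^ ((av1 ^^ bv1) && (av2 ^^ bv2))) = ((aw11 ^^ aw12 ^^ aw13 ^^ aw23 ^^ (av1 && av2)) ^^ (bw11 ^^ bw12 ^^ bw13 ^^ bw23 ^^ (bv1 && bv2)) ^^ ((av1 ^^ av2) && (bv1 ^^ bv3))))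
    g.v1 g.v2 g.v3 g.w11 g.w12 g.w13 g.w23 h.v1 h.v2 h.v3 h.w11 h.w12 h.w13 h.w23

def e1 : D where
  f g := (g.v1 ^^ g.v4)
  p g := g.v3
  c g := (g.w13 ^^ g.w34 ^^ (g.v3 && g.v4))
  hf := fun g h => (by decide +kernel : ∀ av1 av4 bv1 bv4 : Bool,
    ((av1 ^^ bv1) ^^ (av4 ^^ bv4)) = ((av1 ^^ av4) ^^ (bv1 ^^ bv4)))
    g.v1 g.v4 h.v1 h.v4
  hp := fun g h => (by decide +kernel : ∀ av3 bv3 : Bool,
    (av3 ^^ bv3) = (av3 ^^ bv3))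
    g.v3 h.v3
  hc := fun g h => (by decide +kernel : ∀ av1 av3 av4 aw13 aw34 bv1 bv3 bv4 bw13 bw34 : Bool,
    ((aw13 ^^ bw13 ^^ (av1 && bv3)) ^^ (aw34 ^^ bw34 ^^ (av3 && bv4)) ^^ ((av3 ^^ bv3) && (av4 ^^ bv4))) = ((aw13 ^^ aw34 ^^ (av3 && av4)) ^^ (bw13 ^^ bw34 ^^ (bv3 && bv4)) ^^ ((av1 ^^ av4) && bv3)))
    g.v1 g.v3 g.v4 g.w13 g.w34 h.v1 h.v3 h.v4 h.w13 h.w34

def e2 : D where
  f g := (g.v2 ^^ g.v4)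
  p g := g.v3
  c g := (g.w23 ^^ g.w34 ^^ (g.v3 && g.v4))
  hf := fun g h => (by decide +kernel : ∀ av2 av4 bv2 bv4 : Bool,
    ((av2 ^^ bv2) ^^ (av4 ^^ bv4)) = ((av2 ^^ av4) ^^ (bv2 ^^ bv4)))
    g.v2 g.v4 h.v2 h.v4
  hp := fun g h => (by decide +kernel : ∀ av3 bv3 : Bool,
    (av3 ^^ bv3) = (av3 ^^ bv3))
    g.v3 h.v3
  hc := fun g h => (by decide +kernel : ∀ av2 av3 av4 aw23 aw34 bv2 bv3 bv4 bw23 bw34 : Bool,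
    ((aw23 ^^ bw23 ^^ (av2 && bv3)) ^^ (aw34 ^^ bw34 ^^ (av3 && bv4)) ^^ ((av3 ^^ bv3) && (av4 ^^ bv4))) = ((aw23 ^^ aw34 ^^ (av3 && av4)) ^^ (bw23 ^^ bw34 ^^ (bv3 && bv4)) ^^ ((av2 ^^ av4) && bv3)))
    g.v2 g.v3 g.v4 g.w23 g.w34 h.v2 h.v3 h.v4 h.w23 h.w34

def e3 : D where
  f g := g.v2
  p g := (g.v3 ^^ g.v4)
  c g := (g.w23 ^^ g.w24)
  hf := fun g h => (by decide +kernel : ∀ av2 bv2 : Bool,
    (av2 ^^ bv2) = (av2 ^^ bv2))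
    g.v2 h.v2
  hp := fun g h => (by decide +kernel : ∀ av3 av4 bv3 bv4 : Bool,
    ((av3 ^^ bv3) ^^ (av4 ^^ bv4)) = ((av3 ^^ av4) ^^ (bv3 ^^ bv4)))
    g.v3 g.v4 h.v3 h.v4
  hc := fun g h => (by decide +kernel : ∀ av2 av3 av4 aw23 aw24 bv2 bv3 bv4 bw23 bw24 : Bool,
    ((aw23 ^^ bw23 ^^ (av2 && bv3)) ^^ (aw24 ^^ bw24 ^^ (av2 && bv4))) = ((aw23 ^^ aw24) ^^ (bw23 ^^ bw24) ^^ (av2 && (bv3 ^^ bv4))))
    g.v2 g.v3 g.v4 g.w23 g.w24 h.v2 h.v3 h.v4 h.w23 h.w24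

end Pool.Agent.H.MP_011e6c_al
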