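import Pool.Agent.H.MP_011e6c_al.A

namespace Pool.Agent.H.MP_011e6c_al

lemma m1 : c1.K ⊓ c12.K ≤ c2.K := le_of fun v1 v2 _ _ w11 w22 _ _ _ _ _ _ =>
  (by decide +kernel : ∀ v1 v2 w11 w22, (⟨v1, v2, false, false, w11, w22, false, false, false, false, false, false⟩ : G) ∈ (c1.K ⊓ c12.K).1 →
    (⟨v1, v2, false, false, w11, w22, false, false, false, false, false, false⟩ : G) ∈ c2.K.1) v1 v2 w11 w22
lemma m2 : c13.K ⊓ c3.K ≤ c1.K := le_of fun v1 _ v3 _ w11 _ w33 _ _ _ _ _ =>
  (by decide +kernel : ∀ v1 v3 w11 w33, (⟨v1, false, v3, false, w11, false, w33, false, false, false, false, false⟩ : G) ∈ (c13.K ⊓ c3.K).1 →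
    (⟨v1, false, v3, false, w11, false, w33, false, false, false, false, false⟩ : G) ∈ c1.K.1) v1 v3 w11 w33
lemma m3 : z12.K ⊓ z2.K ≤ z1.K := le_of fun v1 v2 _ _ _ _ _ _ _ _ _ _ =>
  (by decide +kernel : ∀ v1 v2, (⟨v1, v2, false, false, false, false, false, false, false, false, false, false⟩ : G) ∈ (z12.K ⊓ z2.K).1 →
    (⟨v1, v2, false, false, false, false, false, false, false, false, false, false⟩ : G) ∈ z1.K.1) v1 v2
lemma m4 : z12.K ⊓ z1.K ≤ z2.K := le_of fun v1 v2 _ _ _ _ _ _ _ _ _ _ =>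
  (by decide +kernel : ∀ v1 v2, (⟨v1, v2, false, false, false, false, false, false, false, false, false, false⟩ : G) ∈ (z12.K ⊓ z1.K).1 →
    (⟨v1, v2, false, false, false, false, false, false, false, false, false, false⟩ : G) ∈ z2.K.1) v1 v2
lemma m5 : z13.K ⊓ z1.K ≤ z3.K := le_of fun v1 _ v3 _ _ _ _ _ _ _ _ _ =>
  (by decide +kernel : ∀ v1 v3, (⟨v1, false, v3, false, false, false, false, false, false, false, false, false⟩ : G) ∈ (z13.K ⊓ z1.K).1 →
    (⟨v1, false, v3, false, false, false, false, false, false, false, false, false⟩ : G) ∈ z3.K.1) v1 v3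
lemma m6 : c12.K ≤ z12.K := le_of fun v1 v2 _ _ w11 w22 _ _ _ _ _ _ =>
  (by decide +kernel : ∀ v1 v2 w11 w22, (⟨v1, v2, false, false, w11, w22, false, false, false, false, false, false⟩ : G) ∈ (c12.K).1 →
    (⟨v1, v2, false, false, w11, w22, false, false, false, false, false, false⟩ : G) ∈ z12.K.1) v1 v2 w11 w22
lemma m7 : c1.K ≤ z1.K := le_of fun v1 _ _ _ w11 _ _ _ _ _ _ _ =>
  (by decide +kernel : ∀ v1 w11, (⟨v1, false, false, false, w11, false, false, false, false, false, false, false⟩ : G) ∈ (c1.K).1 →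
    (⟨v1, false, false, false, w11, false, false, false, false, false, false, false⟩ : G) ∈ z1.K.1) v1 w11
lemma m8 : c2.K ≤ z2.K := le_of fun _ v2 _ _ _ w22 _ _ _ _ _ _ =>
  (by decide +kernel : ∀ v2 w22, (⟨false, v2, false, false, false, w22, false, false, false, false, false, false⟩ : G) ∈ (c2.K).1 →
    (⟨false, v2, false, false, false, w22, false, false, false, false, false, false⟩ : G) ∈ z2.K.1) v2 w22
lemma m9 : c3.K ≤ z3.K := le_of fun _ _ v3 _ _ _ w33 _ _ _ _ _ =>
  (by decide +kernel : ∀ v3 w33, (⟨false, false, v3, false, false, false, w33, false, false, false, false, false⟩ : G) ∈ (c3.K).1 →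
    (⟨false, false, v3, false, false, false, w33, false, false, false, false, false⟩ : G) ∈ z3.K.1) v3 w33
lemma m10 : d.K ≤ z2.K := le_of fun v1 v2 _ _ _ w22 _ _ _ _ _ _ =>
  (by decide +kernel : ∀ v1 v2 w22, (⟨v1, v2, false, false, false, w22, false, false, false, false, false, false⟩ : G) ∈ (d.K).1 →
    (⟨v1, v2, false, false, false, w22, false, false, false, false, false, false⟩ : G) ∈ z2.K.1) v1 v2 w22
lemma m11 : k.K ⊓ a12.K ⊓ a13.K ⊓ a23.K ≤ c1.K := le_of fun v1 v2 v3 _ w11 _ _ w12 w13 w23 _ _ =>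
  (by decide +kernel : ∀ v1 v2 v3 w11 w12 w13 w23, (⟨v1, v2, v3, false, w11, false, false, w12, w13, w23, false, false⟩ : G) ∈ (k.K ⊓ a12.K ⊓ a13.K ⊓ a23.K).1 →
    (⟨v1, v2, v3, false, w11, false, false, w12, w13, w23, false, false⟩ : G) ∈ c1.K.1) v1 v2 v3 w11 w12 w13 w23
lemma m12 : a13.K ≤ z1.K := le_of fun v1 _ v3 _ _ _ _ _ w13 _ _ _ =>
  (by decide +kernel : ∀ v1 v3 w13, (⟨v1, false, v3, false, false, false, false, false, w13, false, false, false⟩ : G) ∈ (a13.K).1 →
    (⟨v1, false, v3, false, false, false, false, false, w13, false, false, false⟩ : G) ∈ z1.K.1) v1 v3 w13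
lemma m13 : a12.K ≤ z1.K := le_of fun v1 v2 _ _ _ _ _ w12 _ _ _ _ =>
  (by decide +kernel : ∀ v1 v2 w12, (⟨v1, v2, false, false, false, false, false, w12, false, false, false, false⟩ : G) ∈ (a12.K).1 →
    (⟨v1, v2, false, false, false, false, false, w12, false, false, false, false⟩ : G) ∈ z1.K.1) v1 v2 w12
lemma m14 : b3.K ≤ z3.K := le_of fun v1 v2 v3 _ _ _ _ _ w13 w23 _ _ =>
  (by decide +kernel : ∀ v1 v2 v3 w13 w23, (⟨v1, v2, v3, false, false, false, false, false, w13, w23, false, false⟩ : G) ∈ (b3.K).1 →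
    (⟨v1, v2, v3, false, false, false, false, false, w13, w23, false, false⟩ : G) ∈ z3.K.1) v1 v2 v3 w13 w23
lemma m15 : b2.K ≤ z2.K := le_of fun v1 v2 v3 _ _ _ _ w12 _ w23 _ _ =>
  (by decide +kernel : ∀ v1 v2 v3 w12 w23, (⟨v1, v2, v3, false, false, false, false, w12, false, w23, false, false⟩ : G) ∈ (b2.K).1 →
    (⟨v1, v2, v3, false, false, false, false, w12, false, w23, false, false⟩ : G) ∈ z2.K.1) v1 v2 v3 w12 w23
lemma m16 : b1.K ≤ z1.K := le_of fun v1 v2 v3 _ _ _ _ w12 w13 _ _ _ =>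
  (by decide +kernel : ∀ v1 v2 v3 w12 w13, (⟨v1, v2, v3, false, false, false, false, w12, w13, false, false, false⟩ : G) ∈ (b1.K).1 →
    (⟨v1, v2, v3, false, false, false, false, w12, w13, false, false, false⟩ : G) ∈ z1.K.1) v1 v2 v3 w12 w13
lemma m17 : e1.K ⊓ a34.K ≤ a13.K := le_of fun v1 _ v3 v4 _ _ _ _ w13 _ w34 _ =>
  (by decide +kernel : ∀ v1 v3 v4 w13 w34, (⟨v1, false, v3, v4, false, false, false, false, w13, false, w34, false⟩ : G) ∈ (e1.K ⊓ a34.K).1 →
    (⟨v1, false, v3, v4, false, false, false, false, w13, false, w34, false⟩ : G) ∈ a13.K.1) v1 v3 v4 w13 w34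
lemma m18 : e2.K ⊓ a34.K ≤ a23.K := le_of fun _ v2 v3 v4 _ _ _ _ _ w23 w34 _ =>
  (by decide +kernel : ∀ v2 v3 v4 w23 w34, (⟨false, v2, v3, v4, false, false, false, false, false, w23, w34, false⟩ : G) ∈ (e2.K ⊓ a34.K).1 →
    (⟨false, v2, v3, v4, false, false, false, false, false, w23, w34, false⟩ : G) ∈ a23.K.1) v2 v3 v4 w23 w34
lemma m19 : e3.K ⊓ a24.K ≤ a23.K := le_of fun _ v2 v3 v4 _ _ _ _ _ w23 _ w24 =>
  (by decide +kernel : ∀ v2 v3 v4 w23 w24, (⟨false, v2, v3, v4, false, false, false, false, false, w23, false, w24⟩ : G) ∈ (e3.K ⊓ a24.K).1 →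
    (⟨false, v2, v3, v4, false, false, false, false, false, w23, false, w24⟩ : G) ∈ a23.K.1) v2 v3 v4 w23 w24
lemma j1 : T ≤ c1.K ⊔ c2.K :=
  sup_of (fun g => ⟨false, g.v2, false, false, false, g.w22, false, false, false, false, false, false⟩) fun v1 v2 _ _ w11 w22 _ _ _ _ _ _ =>
  (by decide +kernel : ∀ v1 v2 w11 w22, (⟨v1, v2, false, false, w11, w22, false, false, false, false, false, false⟩ : G) ∈ (T).1 →
    (⟨false, v2, false, false, false, w22, false, false, false, false, false, false⟩ : G) ∈ (c1.K).1 ∧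
    (⟨false, v2, false, false, false, w22, false, false, false, false, false, false⟩ : G)⁻¹ *
    (⟨v1, v2, false, false, w11, w22, false, false, false, false, false, false⟩ : G) ∈ (c2.K).1) v1 v2 w11 w22
lemma j2 : T ≤ c1.K ⊔ c3.K :=
  sup_of (fun g => ⟨false, false, g.v3, false, false, false, g.w33, false, false, false, false, false⟩) fun v1 _ v3 _ w11 _ w33 _ _ _ _ _ =>
  (by decide +kernel : ∀ v1 v3 w11 w33, (⟨v1, false, v3, false, w11, false, w33, false, false, false, false, false⟩ : G) ∈ (T).1 →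
    (⟨false, false, v3, false, false, false, w33, false, false, false, false, false⟩ : G) ∈ (c1.K).1 ∧
    (⟨false, false, v3, false, false, false, w33, false, false, false, false, false⟩ : G)⁻¹ *
    (⟨v1, false, v3, false, w11, false, w33, false, false, false, false, false⟩ : G) ∈ (c3.K).1) v1 v3 w11 w33
lemma j3 : T ≤ c2.K ⊔ c3.K :=
  sup_of (fun g => ⟨false, false, g.v3, false, false, false, g.w33, false, false, false, false, false⟩) fun _ v2 v3 _ _ w22 w33 _ _ _ _ _ =>
  (by decide +kernel : ∀ v2 v3 w22 w33, (⟨false, v2, v3, false, false, w22, w33, false, false, false, false, false⟩ : G) ∈ (T).1 →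
    (⟨false, false, v3, false, false, false, w33, false, false, false, false, false⟩ : G) ∈ (c2.K).1 ∧
    (⟨false, false, v3, false, false, false, w33, false, false, false, false, false⟩ : G)⁻¹ *
    (⟨false, v2, v3, false, false, w22, w33, false, false, false, false, false⟩ : G) ∈ (c3.K).1) v2 v3 w22 w33
lemma j4 : c23.K ≤ c12.K ⊓ c13.K ⊔ c2.K ⊓ c3.K :=
  sup_of (fun g => ⟨g.v2, g.v2, g.v2, false, g.w22, g.w22, g.w22, false, false, false, false, false⟩) fun v1 v2 v3 _ w11 w22 w33 _ _ _ _ _ =>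
  (by decide +kernel : ∀ v1 v2 v3 w11 w22 w33, (⟨v1, v2, v3, false, w11, w22, w33, false, false, false, false, false⟩ : G) ∈ (c23.K).1 →
    (⟨v2, v2, v2, false, w22, w22, w22, false, false, false, false, false⟩ : G) ∈ (c12.K ⊓ c13.K).1 ∧
    (⟨v2, v2, v2, false, w22, w22, w22, false, false, false, false, false⟩ : G)⁻¹ *
    (⟨v1, v2, v3, false, w11, w22, w33, false, false, false, false, false⟩ : G) ∈ (c2.K ⊓ c3.K).1) v1 v2 v3 w11 w22 w33
lemma j5 : y.K ≤ c12.K ⊓ c3.K ⊔ c1.K ⊓ c23.K :=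
  sup_of (fun g => ⟨g.v1, g.v1, false, false, g.w11, g.w11, false, false, false, false, false, false⟩) fun v1 v2 v3 _ w11 w22 w33 _ _ _ _ _ =>
  (by decide +kernel : ∀ v1 v2 v3 w11 w22 w33, (⟨v1, v2, v3, false, w11, w22, w33, false, false, false, false, false⟩ : G) ∈ (y.K).1 →
    (⟨v1, v1, false, false, w11, w11, false, false, false, false, false, false⟩ : G) ∈ (c12.K ⊓ c3.K).1 ∧
    (⟨v1, v1, false, false, w11, w11, false, false, false, false, false, false⟩ : G)⁻¹ *
    (⟨v1, v2, v3, false, w11, w22, w33, false, false, false, false, false⟩ : G) ∈ (c1.K ⊓ c23.K).1) v1 v2 v3 w11 w22 w33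
lemma j6 : d.K ≤ y.K ⊓ c13.K ⊔ c1.K ⊓ c2.K :=
  sup_of (fun g => ⟨g.v1, false, g.v1, false, g.w11, g.v1, g.w11, false, false, false, false, false⟩) fun v1 v2 v3 _ w11 w22 w33 _ _ _ _ _ =>
  (by decide +kernel : ∀ v1 v2 v3 w11 w22 w33, (⟨v1, v2, v3, false, w11, w22, w33, false, false, false, false, false⟩ : G) ∈ (d.K).1 →
    (⟨v1, false, v1, false, w11, v1, w11, false, false, false, false, false⟩ : G) ∈ (y.K ⊓ c13.K).1 ∧
    (⟨v1, false, v1, false, w11, v1, w11, false, false, false, false, false⟩ : G)⁻¹ *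
    (⟨v1, v2, v3, false, w11, w22, w33, false, false, false, false, false⟩ : G) ∈ (c1.K ⊓ c2.K).1) v1 v2 v3 w11 w22 w33
lemma j7 : z2.K ≤ d.K ⊔ c2.K :=
  sup_of (fun g => ⟨g.w22, false, false, false, false, g.w22, false, false, false, false, false, false⟩) fun v1 v2 _ _ _ w22 _ _ _ _ _ _ =>
  (by decide +kernel : ∀ v1 v2 w22, (⟨v1, v2, false, false, false, w22, false, false, false, false, false, false⟩ : G) ∈ (z2.K).1 →
    (⟨w22, false, false, false, false, w22, false, false, false, false, false, false⟩ : G) ∈ (d.K).1 ∧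
    (⟨w22, false, false, false, false, w22, false, false, false, false, false, false⟩ : G)⁻¹ *
    (⟨v1, v2, false, false, false, w22, false, false, false, false, false, false⟩ : G) ∈ (c2.K).1) v1 v2 w22
lemma j8 : z1.K ≤ d.K ⊓ c2.K ⊔ c1.K :=
  sup_of (fun g => ⟨false, false, false, false, g.w11, false, false, false, false, false, false, false⟩) fun v1 v2 _ _ w11 w22 _ _ _ _ _ _ =>
  (by decide +kernel : ∀ v1 v2 w11 w22, (⟨v1, v2, false, false, w11, w22, false, false, false, false, false, false⟩ : G) ∈ (z1.K).1 →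
    (⟨false, false, false, false, w11, false, false, false, false, false, false, false⟩ : G) ∈ (d.K ⊓ c2.K).1 ∧
    (⟨false, false, false, false, w11, false, false, false, false, false, false, false⟩ : G)⁻¹ *
    (⟨v1, v2, false, false, w11, w22, false, false, false, false, false, false⟩ : G) ∈ (c1.K).1) v1 v2 w11 w22
lemma j9 : T ≤ d.K ⊔ c1.K :=
  sup_of (fun g => ⟨g.v1, false, false, false, g.w11, g.v1, false, false, false, false, false, false⟩) fun v1 v2 _ _ w11 w22 _ _ _ _ _ _ =>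
  (by decide +kernel : ∀ v1 v2 w11 w22, (⟨v1, v2, false, false, w11, w22, false, false, false, false, false, false⟩ : G) ∈ (T).1 →
    (⟨v1, false, false, false, w11, v1, false, false, false, false, false, false⟩ : G) ∈ (d.K).1 ∧
    (⟨v1, false, false, false, w11, v1, false, false, false, false, false, false⟩ : G)⁻¹ *
    (⟨v1, v2, false, false, w11, w22, false, false, false, false, false, false⟩ : G) ∈ (c1.K).1) v1 v2 w11 w22
lemma j10 : T ≤ z12.K ⊔ z2.K :=
  sup_of (fun g => ⟨g.v2, g.v2, false, false, false, false, false, false, false, false, false, false⟩) fun v1 v2 _ _ _ _ _ _ _ _ _ _ =>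
  (by decide +kernel : ∀ v1 v2, (⟨v1, v2, false, false, false, false, false, false, false, false, false, false⟩ : G) ∈ (T).1 →
    (⟨v2, v2, false, false, false, false, false, false, false, false, false, false⟩ : G) ∈ (z12.K).1 ∧
    (⟨v2, v2, false, false, false, false, false, false, false, false, false, false⟩ : G)⁻¹ *
    (⟨v1, v2, false, false, false, false, false, false, false, false, false, false⟩ : G) ∈ (z2.K).1) v1 v2
lemma j11 : T ≤ z13.K ⊔ z3.K :=
  sup_of (fun g => ⟨g.v3, false, g.v3, false, false, false, false, false, false, false, false, false⟩) fun v1 _ v3 _ _ _ _ _ _ _ _ _ =>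
  (by decide +kernel : ∀ v1 v3, (⟨v1, false, v3, false, false, false, false, false, false, false, false, false⟩ : G) ∈ (T).1 →
    (⟨v3, false, v3, false, false, false, false, false, false, false, false, false⟩ : G) ∈ (z13.K).1 ∧
    (⟨v3, false, v3, false, false, false, false, false, false, false, false, false⟩ : G)⁻¹ *
    (⟨v1, false, v3, false, false, false, false, false, false, false, false, false⟩ : G) ∈ (z3.K).1) v1 v3
lemma j12 : z1.K ⊓ z2.K ≤ k.K ⊓ a13.K ⊓ a23.K ⊔ a12.K :=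
  sup_of (fun g => ⟨false, false, false, false, g.w12, false, false, g.w12, false, false, false, false⟩) fun v1 v2 v3 _ w11 _ _ w12 w13 w23 _ _ =>
  (by decide +kernel : ∀ v1 v2 v3 w11 w12 w13 w23, (⟨v1, v2, v3, false, w11, false, false, w12, w13, w23, false, false⟩ : G) ∈ (z1.K ⊓ z2.K).1 →
    (⟨false, false, false, false, w12, false, false, w12, false, false, false, false⟩ : G) ∈ (k.K ⊓ a13.K ⊓ a23.K).1 ∧
    (⟨false, false, false, false, w12, false, false, w12, false, false, false, false⟩ : G)⁻¹ *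
    (⟨v1, v2, v3, false, w11, false, false, w12, w13, w23, false, false⟩ : G) ∈ (a12.K).1) v1 v2 v3 w11 w12 w13 w23
lemma j13 : z1.K ⊓ z3.K ≤ k.K ⊓ a12.K ⊓ a23.K ⊔ a13.K :=
  sup_of (fun g => ⟨false, false, false, false, g.w13, false, false, false, g.w13, false, false, false⟩) fun v1 v2 v3 _ w11 _ _ w12 w13 w23 _ _ =>
  (by decide +kernel : ∀ v1 v2 v3 w11 w12 w13 w23, (⟨v1, v2, v3, false, w11, false, false, w12, w13, w23, false, false⟩ : G) ∈ (z1.K ⊓ z3.K).1 →
    (⟨false, false, false, false, w13, false, false, false, w13, false, false, false⟩ : G) ∈ (k.K ⊓ a12.K ⊓ a23.K).1 ∧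
    (⟨false, false, false, false, w13, false, false, false, w13, false, false, false⟩ : G)⁻¹ *
    (⟨v1, v2, v3, false, w11, false, false, w12, w13, w23, false, false⟩ : G) ∈ (a13.K).1) v1 v2 v3 w11 w12 w13 w23
lemma j14 : z2.K ⊓ z3.K ≤ k.K ⊓ a12.K ⊓ a13.K ⊔ a23.K :=
  sup_of (fun g => ⟨false, false, false, false, g.w23, false, false, false, false, g.w23, false, false⟩) fun v1 v2 v3 _ w11 _ _ w12 w13 w23 _ _ =>
  (by decide +kernel : ∀ v1 v2 v3 w11 w12 w13 w23, (⟨v1, v2, v3, false, w11, false, false, w12, w13, w23, false, false⟩ : G) ∈ (z2.K ⊓ z3.K).1 →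
    (⟨false, false, false, false, w23, false, false, false, false, w23, false, false⟩ : G) ∈ (k.K ⊓ a12.K ⊓ a13.K).1 ∧
    (⟨false, false, false, false, w23, false, false, false, false, w23, false, false⟩ : G)⁻¹ *
    (⟨v1, v2, v3, false, w11, false, false, w12, w13, w23, false, false⟩ : G) ∈ (a23.K).1) v1 v2 v3 w11 w12 w13 w23
lemma j15 : b3.K ⊓ z1.K ⊓ z2.K ⊓ z3.K ≤ a12.K ⊓ k.K ⊓ c1.K ⊔ a13.K ⊓ a23.K :=
  sup_of (fun g => ⟨false, false, false, false, false, false, false, false, g.w13, g.w13, false, false⟩) fun v1 v2 v3 _ w11 _ _ w12 w13 w23 _ _ =>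
  (by decide +kernel : ∀ v1 v2 v3 w11 w12 w13 w23, (⟨v1, v2, v3, false, w11, false, false, w12, w13, w23, false, false⟩ : G) ∈ (b3.K ⊓ z1.K ⊓ z2.K ⊓ z3.K).1 →
    (⟨false, false, false, false, false, false, false, false, w13, w13, false, false⟩ : G) ∈ (a12.K ⊓ k.K ⊓ c1.K).1 ∧
    (⟨false, false, false, false, false, false, false, false, w13, w13, false, false⟩ : G)⁻¹ *
    (⟨v1, v2, v3, false, w11, false, false, w12, w13, w23, false, false⟩ : G) ∈ (a13.K ⊓ a23.K).1) v1 v2 v3 w11 w12 w13 w23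
lemma j16 : b2.K ⊓ z1.K ⊓ z2.K ⊓ z3.K ≤ a13.K ⊓ k.K ⊓ c1.K ⊔ a12.K ⊓ a23.K :=
  sup_of (fun g => ⟨false, false, false, false, false, false, false, g.w12, false, g.w12, false, false⟩) fun v1 v2 v3 _ w11 _ _ w12 w13 w23 _ _ =>
  (by decide +kernel : ∀ v1 v2 v3 w11 w12 w13 w23, (⟨v1, v2, v3, false, w11, false, false, w12, w13, w23, false, false⟩ : G) ∈ (b2.K ⊓ z1.K ⊓ z2.K ⊓ z3.K).1 →
    (⟨false, false, false, false, false, false, false, w12, false, w12, false, false⟩ : G) ∈ (a13.K ⊓ k.K ⊓ c1.K).1 ∧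
    (⟨false, false, false, false, false, false, false, w12, false, w12, false, false⟩ : G)⁻¹ *
    (⟨v1, v2, v3, false, w11, false, false, w12, w13, w23, false, false⟩ : G) ∈ (a12.K ⊓ a23.K).1) v1 v2 v3 w11 w12 w13 w23
lemma j17 : b1.K ⊓ z1.K ⊓ z2.K ⊓ z3.K ≤ a23.K ⊓ k.K ⊓ c1.K ⊔ a12.K ⊓ a13.K :=
  sup_of (fun g => ⟨false, false, false, false, false, false, false, g.w12, g.w12, false, false, false⟩) fun v1 v2 v3 _ w11 _ _ w12 w13 w23 _ _ =>
  (by decide +kernel : ∀ v1 v2 v3 w11 w12 w13 w23, (⟨v1, v2, v3, false, w11, false, false, w12, w13, w23, false, false⟩ : G) ∈ (b1.K ⊓ z1.K ⊓ z2.K ⊓ z3.K).1 →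
    (⟨false, false, false, false, false, false, false, w12, w12, false, false, false⟩ : G) ∈ (a23.K ⊓ k.K ⊓ c1.K).1 ∧
    (⟨false, false, false, false, false, false, false, w12, w12, false, false, false⟩ : G)⁻¹ *
    (⟨v1, v2, v3, false, w11, false, false, w12, w13, w23, false, false⟩ : G) ∈ (a12.K ⊓ a13.K).1) v1 v2 v3 w11 w12 w13 w23
lemma j18 : k.K ≤ z1.K ⊓ z2.K ⊔ b3.K :=
  sup_of (fun g => ⟨false, false, g.v3, false, false, false, false, false, false, (g.w23 ^^ g.w13), false, false⟩) fun v1 v2 v3 _ w11 _ _ w12 w13 w23 _ _ =>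
  (by decide +kernel : ∀ v1 v2 v3 w11 w12 w13 w23, (⟨v1, v2, v3, false, w11, false, false, w12, w13, w23, false, false⟩ : G) ∈ (k.K).1 →
    (⟨false, false, v3, false, false, false, false, false, false, (w23 ^^ w13), false, false⟩ : G) ∈ (z1.K ⊓ z2.K).1 ∧
    (⟨false, false, v3, false, false, false, false, false, false, (w23 ^^ w13), false, false⟩ : G)⁻¹ *
    (⟨v1, v2, v3, false, w11, false, false, w12, w13, w23, false, false⟩ : G) ∈ (b3.K).1) v1 v2 v3 w11 w12 w13 w23
lemma j19 : k.K ≤ z1.K ⊓ z3.K ⊔ b2.K :=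
  sup_of (fun g => ⟨false, g.v2, false, false, false, false, false, false, false, (g.w23 ^^ g.w12 ^^ (g.v2 && g.v3)), false, false⟩) fun v1 v2 v3 _ w11 _ _ w12 w13 w23 _ _ =>
  (by decide +kernel : ∀ v1 v2 v3 w11 w12 w13 w23, (⟨v1, v2, v3, false, w11, false, false, w12, w13, w23, false, false⟩ : G) ∈ (k.K).1 →
    (⟨false, v2, false, false, false, false, false, false, false, (w23 ^^ w12 ^^ (v2 && v3)), false, false⟩ : G) ∈ (z1.K ⊓ z3.K).1 ∧
    (⟨false, v2, false, false, false, false, false, false, false, (w23 ^^ w12 ^^ (v2 && v3)), false, false⟩ : G)⁻¹ *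
    (⟨v1, v2, v3, false, w11, false, false, w12, w13, w23, false, false⟩ : G) ∈ (b2.K).1) v1 v2 v3 w11 w12 w13 w23
lemma j20 : k.K ≤ z2.K ⊓ z3.K ⊔ b1.K :=
  sup_of (fun g => ⟨g.v1, false, false, false, false, false, false, false, (g.w13 ^^ g.w12 ^^ (g.v1 && g.v3) ^^ (g.v1 && g.v2)), false, false, false⟩) fun v1 v2 v3 _ w11 _ _ w12 w13 w23 _ _ =>
  (by decide +kernel : ∀ v1 v2 v3 w11 w12 w13 w23, (⟨v1, v2, v3, false, w11, false, false, w12, w13, w23, false, false⟩ : G) ∈ (k.K).1 →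
    (⟨v1, false, false, false, false, false, false, false, (w13 ^^ w12 ^^ (v1 && v3) ^^ (v1 && v2)), false, false, false⟩ : G) ∈ (z2.K ⊓ z3.K).1 ∧
    (⟨v1, false, false, false, false, false, false, false, (w13 ^^ w12 ^^ (v1 && v3) ^^ (v1 && v2)), false, false, false⟩ : G)⁻¹ *
    (⟨v1, v2, v3, false, w11, false, false, w12, w13, w23, false, false⟩ : G) ∈ (b1.K).1) v1 v2 v3 w11 w12 w13 w23
lemma j21 : T ≤ k.K ⊔ c1.K :=
  sup_of (fun g => ⟨g.v1, g.v1, g.v1, false, g.w11, false, false, false, false, (g.w11 ^^ g.v1), false, false⟩) fun v1 v2 v3 _ w11 _ _ w12 w13 w23 _ _ =>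
  (by decide +kernel : ∀ v1 v2 v3 w11 w12 w13 w23, (⟨v1, v2, v3, false, w11, false, false, w12, w13, w23, false, false⟩ : G) ∈ (T).1 →
    (⟨v1, v1, v1, false, w11, false, false, false, false, (w11 ^^ v1), false, false⟩ : G) ∈ (k.K).1 ∧
    (⟨v1, v1, v1, false, w11, false, false, false, false, (w11 ^^ v1), false, false⟩ : G)⁻¹ *
    (⟨v1, v2, v3, false, w11, false, false, w12, w13, w23, false, false⟩ : G) ∈ (c1.K).1) v1 v2 v3 w11 w12 w13 w23
lemma j22 : T ≤ e1.K ⊔ a12.K :=
  sup_of (fun g => ⟨g.v1, g.v2, false, g.v1, false, false, false, g.w12, false, false, false, false⟩) fun v1 v2 v3 v4 _ _ _ w12 w13 _ w34 _ =>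
  (by decide +kernel : ∀ v1 v2 v3 v4 w12 w13 w34, (⟨v1, v2, v3, v4, false, false, false, w12, w13, false, w34, false⟩ : G) ∈ (T).1 →
    (⟨v1, v2, false, v1, false, false, false, w12, false, false, false, false⟩ : G) ∈ (e1.K).1 ∧
    (⟨v1, v2, false, v1, false, false, false, w12, false, false, false, false⟩ : G)⁻¹ *
    (⟨v1, v2, v3, v4, false, false, false, w12, w13, false, w34, false⟩ : G) ∈ (a12.K).1) v1 v2 v3 v4 w12 w13 w34
lemma j23 : T ≤ a34.K ⊔ a12.K :=
  sup_of (fun g => ⟨g.v1, g.v2, false, false, false, false, false, g.w12, false, false, false, false⟩) fun v1 v2 v3 v4 _ _ _ w12 _ _ w34 _ =>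
  (by decide +kernel : ∀ v1 v2 v3 v4 w12 w34, (⟨v1, v2, v3, v4, false, false, false, w12, false, false, w34, false⟩ : G) ∈ (T).1 →
    (⟨v1, v2, false, false, false, false, false, w12, false, false, false, false⟩ : G) ∈ (a34.K).1 ∧
    (⟨v1, v2, false, false, false, false, false, w12, false, false, false, false⟩ : G)⁻¹ *
    (⟨v1, v2, v3, v4, false, false, false, w12, false, false, w34, false⟩ : G) ∈ (a12.K).1) v1 v2 v3 v4 w12 w34
lemma j24 : T ≤ e2.K ⊔ a12.K :=
  sup_of (fun g => ⟨g.v1, g.v2, false, g.v2, false, false, false, g.w12, false, false, false, false⟩) fun v1 v2 v3 v4 _ _ _ w12 _ w23 w34 _ =>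
  (by decide +kernel : ∀ v1 v2 v3 v4 w12 w23 w34, (⟨v1, v2, v3, v4, false, false, false, w12, false, w23, w34, false⟩ : G) ∈ (T).1 →
    (⟨v1, v2, false, v2, false, false, false, w12, false, false, false, false⟩ : G) ∈ (e2.K).1 ∧
    (⟨v1, v2, false, v2, false, false, false, w12, false, false, false, false⟩ : G)⁻¹ *
    (⟨v1, v2, v3, v4, false, false, false, w12, false, w23, w34, false⟩ : G) ∈ (a12.K).1) v1 v2 v3 v4 w12 w23 w34
lemma j25 : T ≤ e3.K ⊔ a13.K :=
  sup_of (fun g => ⟨g.v1, false, g.v3, g.v3, false, false, false, false, g.w13, false, false, false⟩) fun v1 v2 v3 v4 _ _ _ _ w13 w23 _ w24 =>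
  (by decide +kernel : ∀ v1 v2 v3 v4 w13 w23 w24, (⟨v1, v2, v3, v4, false, false, false, false, w13, w23, false, w24⟩ : G) ∈ (T).1 →
    (⟨v1, false, v3, v3, false, false, false, false, w13, false, false, false⟩ : G) ∈ (e3.K).1 ∧
    (⟨v1, false, v3, v3, false, false, false, false, w13, false, false, false⟩ : G)⁻¹ *
    (⟨v1, v2, v3, v4, false, false, false, false, w13, w23, false, w24⟩ : G) ∈ (a13.K).1) v1 v2 v3 v4 w13 w23 w24
lemma j26 : T ≤ a24.K ⊔ a13.K :=
  sup_of (fun g => ⟨g.v1, false, g.v3, false, false, false, false, false, g.w13, false, false, false⟩) fun v1 v2 v3 v4 _ _ _ _ w13 _ _ w24 =>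
  (by decide +kernel : ∀ v1 v2 v3 v4 w13 w24, (⟨v1, v2, v3, v4, false, false, false, false, w13, false, false, w24⟩ : G) ∈ (T).1 →
    (⟨v1, false, v3, false, false, false, false, false, w13, false, false, false⟩ : G) ∈ (a24.K).1 ∧
    (⟨v1, false, v3, false, false, false, false, false, w13, false, false, false⟩ : G)⁻¹ *
    (⟨v1, v2, v3, v4, false, false, false, false, w13, false, false, w24⟩ : G) ∈ (a13.K).1) v1 v2 v3 v4 w13 w24
lemma ne2 : ¬ z2.K ≤ c2.K := fun h => absurd (@h ⟨false, false, false, false, false, true, false, false, false, false, false, false⟩ (by decide)) (by decide)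

end Pool.Agent.H.MP_011e6c_al
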