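import Pool.Agent.H.MP_011e6c_al.B

namespace Pool.Agent.H.MP_011e6c_al

structure Rep (H : Type) [Group H] where
  A : NL → Subgroup H
  hn : ∀ x, (A x).Normal
  hi : ∀ x y, A (x ⊓ y) = A x ⊔ A y
  hs : ∀ x y, A (x ⊔ y) = A x ⊓ A y
  h0 : A T = ⊥

variable {H : Type} [Group H]

lemma sqm {N : Subgroup H} (hN : N.Normal) {n x : H} (hn : n ∈ N) (hx : x ^ 2 ∈ N) :
    (n * x) ^ 2 ∈ N := by
  rw [show (n * x) ^ 2 = n * (x * n * x⁻¹) * x ^ 2 by simp only [sq]; group]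
  exact mul_mem (mul_mem hn (hN.conj_mem _ hn _)) hx

namespace Rep
variable (R : Rep H) {x y z : NL} {a b h : H}

lemma l1 (k : h ∈ R.A x) : h ∈ R.A (x ⊓ y) := R.hi x y ▸ Subgroup.mem_sup_left k
lemma r1 (k : h ∈ R.A y) : h ∈ R.A (x ⊓ y) := R.hi x y ▸ Subgroup.mem_sup_right k
lemma mon (l : x ≤ y) (k : h ∈ R.A y) : h ∈ R.A x := inf_eq_left.2 l ▸ R.r1 k
lemma pr (k : a ∈ R.A x) (l : b ∈ R.A y) : a * b ∈ R.A (x ⊓ y) := mul_mem (R.l1 k) (R.r1 l)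
lemma dec (k : h ∈ R.A (x ⊓ y)) : ∃ a ∈ R.A x, ∃ b ∈ R.A y, a * b = h := by
  have := R.hn y
  exact Subgroup.mem_sup_of_normal_right.1 (R.hi x y ▸ k)
lemma mt (l : z ≤ x ⊔ y) (k : h ∈ R.A x) (k' : h ∈ R.A y) : h ∈ R.A z :=
  R.mon l (R.hs x y ▸ ⟨k, k'⟩)
lemma tr (l : T ≤ x ⊔ y) (k : h ∈ R.A x) (k' : h ∈ R.A y) : h = 1 :=
  Subgroup.mem_bot.1 (R.h0 ▸ R.mt l k k')
lemma cm (l : T ≤ x ⊔ y) (k : a ∈ R.A x) (k' : b ∈ R.A y) : Commute a b :=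
  Subgroup.commute_of_normal_of_disjoint _ _ (R.hn x) (R.hn y)
    (Subgroup.disjoint_def.2 fun u v => R.tr l u v) _ _ k k'

lemma frame {h1 h2 : H} (k1 : h1 ∈ R.A c1.K) (k2 : h2 ∈ R.A c2.K) (k : h1 * h2⁻¹ ∈ R.A c12.K) :
    h1 ^ 2 * h2⁻¹ ∈ R.A d.K := by
  obtain ⟨t, ht, h3, k3, e⟩ := R.dec (R.mon m2 k1)
  obtain rfl : t = h1 * h3⁻¹ := by rw [← e]; group
  have d12 := R.cm j1 k1 (inv_mem k2)
  have d13 := R.cm j2 k1 k3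
  have d23 := R.cm j3 (inv_mem k2) k3
  have u : h2 * h3⁻¹ ∈ R.A c23.K := R.mt j4
    (by convert R.pr (inv_mem k) ht using 1; group) (R.pr k2 (inv_mem k3))
  have v : h1 * h2⁻¹ * h3 ∈ R.A y.K := R.mt j5 (R.pr k k3)
    (by convert R.pr k1 (inv_mem u) using 1; rw [mul_assoc, d23.eq]; group)
  refine R.mt j6 ?_ (R.pr (pow_mem k1 2) (inv_mem k2))
  convert R.pr v ht using 1
  rw [mul_assoc, ← mul_assoc h3, ← d13.eq, mul_inv_cancel_right, mul_assoc, ← d12.eq, sq, mul_assoc]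

lemma sq1 (k : h ∈ R.A z1.K) : h ^ 2 = 1 := by
  obtain ⟨t, ht, s, hs, e⟩ := R.dec (R.mon m3 k)
  have := R.frame (R.mon m7 k) (R.mon m8 hs) (R.mon m6 (by simpa [← e] using ht))
  exact R.tr j9 (by simpa using mul_mem this (R.mon m10 hs)) (pow_mem (R.mon m7 k) 2)

lemma sq2 (k : h ∈ R.A z2.K) : h ^ 2 = 1 := by
  obtain ⟨t, ht, s, hs, e⟩ := R.dec (R.mon m4 k)
  exact R.tr j10 (e ▸ sqm (R.hn _) ht (R.sq1 hs ▸ one_mem _)) (pow_mem k 2)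

lemma sq3 (k : h ∈ R.A z3.K) : h ^ 2 = 1 := by
  obtain ⟨t, ht, s, hs, e⟩ := R.dec (R.mon m5 k)
  exact R.tr j11 (e ▸ sqm (R.hn _) ht (R.sq1 hs ▸ one_mem _)) (pow_mem k 2)

lemma z12c (k : a ∈ R.A z1.K) (l : b ∈ R.A z2.K) : Commute a b := R.cm j1 (R.mon m7 k) (R.mon m8 l)
lemma z13c (k : a ∈ R.A z1.K) (l : b ∈ R.A z3.K) : Commute a b := R.cm j2 (R.mon m7 k) (R.mon m9 l)
lemma z23c (k : a ∈ R.A z2.K) (l : b ∈ R.A z3.K) : Commute a b := R.cm j3 (R.mon m8 k) (R.mon m9 l)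

lemma sqb (k : h ∈ R.A (x ⊓ z1.K ⊓ z2.K ⊓ z3.K)) : h ^ 2 ∈ R.A x := by
  obtain ⟨_, ka, s3, k3, rfl⟩ := R.dec k
  obtain ⟨_, kb, s2, k2, rfl⟩ := R.dec ka
  obtain ⟨t, kc, s1, k1, rfl⟩ := R.dec kb
  rw [mul_assoc, mul_assoc]
  refine sqm (R.hn _) kc ?_
  rw [((R.z12c k1 k2).mul_right (R.z13c k1 k3)).mul_pow, (R.z23c k2 k3).mul_pow, R.sq1 k1,
    R.sq2 k2, R.sq3 k3, one_mul, one_mul]
  exact one_mem _

lemma core : R.A c2.K ≤ R.A z2.K := fun h2 k2 => by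
  obtain ⟨h1, k1, t, ht, e⟩ := R.dec (R.mon m1 k2)
  have fr := R.frame k1 k2 (by
    convert (R.hn _).conj_mem _ (inv_mem ht) h1 using 1; rw [← e]; group)
  have s1 : h1 ^ 2 ∈ R.A z1.K := R.mt j8 (by simpa using R.pr fr k2) (pow_mem k1 2)
  obtain ⟨_, ka, r, hr, e1⟩ := R.dec (R.mon m11 k1)
  obtain ⟨_, kb, q, hq, rfl⟩ := R.dec ka
  obtain ⟨κ, k, p, hp, rfl⟩ := R.dec kb
  have pq : Commute p q := by
    obtain ⟨u, hu, v, hv, rfl⟩ := R.dec (R.mon m17 hq)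
    exact (R.cm j22 hu hp).symm.mul_right (R.cm j23 hv hp).symm
  have pr : Commute p r := by
    obtain ⟨u, hu, v, hv, rfl⟩ := R.dec (R.mon m18 hr)
    exact (R.cm j24 hu hp).symm.mul_right (R.cm j23 hv hp).symm
  have qr : Commute q r := by
    obtain ⟨u, hu, v, hv, rfl⟩ := R.dec (R.mon m19 hr)
    exact (R.cm j25 hu hq).symm.mul_right (R.cm j26 hv hq).symm
  have e2 : κ⁻¹ * h1 = p * (q * r) := by rw [← e1]; group
  have e3 : (κ⁻¹ * h1) ^ 2 = p ^ 2 * (q ^ 2 * r ^ 2) := by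
    rw [e2, (pq.mul_right pr).mul_pow, qr.mul_pow]
  have w : ∀ x : NL, κ ∈ R.A x → h1 ^ 2 ∈ R.A x → p ^ 2 * (q ^ 2 * r ^ 2) ∈ R.A x := fun x a b =>
    e3 ▸ sqm (R.hn x) (inv_mem a) b
  have p2 := R.mt j12 ((mul_mem_cancel_right (mul_mem (R.l1 (R.r1 (pow_mem hq 2)))
    (R.r1 (pow_mem hr 2)))).1 (w _ (R.l1 (R.l1 k)) (R.l1 (R.r1 (R.mon m12 s1))))) (pow_mem hp 2)
  have q2 := R.mt j13 ((mul_mem_cancel_right (R.r1 (pow_mem hr 2))).1 ((mul_mem_cancel_left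
    (R.l1 (R.r1 (pow_mem hp 2)))).1 (w _ (R.l1 (R.l1 k)) (R.l1 (R.r1 (R.mon m13 s1))))))
    (pow_mem hq 2)
  have r2 := R.mt j14 ((mul_mem_cancel_left (R.r1 (pow_mem hq 2))).1 ((mul_mem_cancel_left
    (R.l1 (R.r1 (pow_mem hp 2)))).1 (w _ (R.l1 (R.l1 k)) (R.l1 (R.r1 (R.mon m13 s1))))))
    (pow_mem hr 2)
  have b3' := R.sqb (R.mt j15 (by
    convert R.pr (R.pr (inv_mem hp) (inv_mem k)) k1 using 1; rw [mul_assoc, e2]; group) (R.pr hq hr))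
  have b2' := R.sqb (R.mt j16 (by
    convert R.pr (R.pr (inv_mem hq) (inv_mem k)) k1 using 1
    rw [mul_assoc, e2, pq.left_comm]; group) (R.pr hp hr))
  have b1' := R.sqb (R.mt j17 (by
    convert R.pr (R.pr (inv_mem hr) (inv_mem k)) k1 using 1
    rw [mul_assoc, e2, qr.eq, pr.left_comm]; group) (R.pr hp hq))
  rw [qr.mul_pow] at b3'
  rw [pr.mul_pow] at b2'
  rw [pq.mul_pow] at b1'
  obtain ⟨p1, a1, p2, a2, ep⟩ := R.dec p2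
  obtain ⟨q1, a3, q3, a4, eq⟩ := R.dec q2
  obtain ⟨r2, a5, r3, a6, er⟩ := R.dec r2
  rw [← eq, ← er] at b3'
  rw [← ep, ← er] at b2'
  rw [← ep, ← eq] at b1'
  have f3 := R.mt j18 (R.pr a3 a5) (by
    convert mul_mem (mul_mem b3' (inv_mem (R.mon m14 a6))) ((R.hn _).conj_mem _
      (inv_mem (R.mon m14 a4)) r2⁻¹) using 1; group)
  have f2 := R.mt j19 (R.pr a1 a6) (by
    convert mul_mem b2' ((R.hn _).conj_mem _
      (inv_mem (R.mon m15 (mul_mem a2 a5))) r3⁻¹) using 1; group)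
  have f1 := R.mt j20 (R.pr a2 a4) (by
    convert mul_mem (mul_mem (inv_mem (R.mon m16 a1)) b1') ((R.hn _).conj_mem _
      (inv_mem (R.mon m16 a3)) q3⁻¹) using 1; group)
  have f : (κ⁻¹ * h1) ^ 2 ∈ R.A MP_011e6c_al.k.K := by
    convert mul_mem f1 (mul_mem f2 f3) using 1
    rw [e3, ← ep, ← eq, ← er]
    simp only [mul_assoc, (R.z12c a1 a2).left_comm, (R.z13c a1 a4).left_comm,
      (R.z13c a3 a4).left_comm, (R.z13c a3 a6).left_comm, (R.z23c a5 a6).eq]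
  have s0 : h1 ^ 2 = 1 := R.tr j21 (by simpa using sqm (R.hn _) k f) (pow_mem k1 2)
  rw [s0, one_mul, inv_mem_iff] at fr
  exact R.mt j7 fr k2

end Rep

end Pool.Agent.H.MP_011e6c_al
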